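import Pool.Agent.H69.DC.Main

/-!
# Planes and quadrics; examples
-/

open Finset

namespace Pool.Agent.H69.DC

namespace Cover

variable (D : Cover)

theorem plane {d : ℤ} (h : D.χ ≤ 3 * D.σ) (hD : D.Plane d) (h0 : D.ε₁ = 0) (h1 : 1 ≤ d) :
    23 ≤ d ∧ ¬ D.Mild ∧ (D.ε = 0 → 40 ≤ d) := by
  obtain ⟨e1, e2, e3, e4⟩ := hD
  refine ⟨?_, fun hm => ?_, fun hε => ?_⟩
  · by_contra hcon
    push Not at hcon
    have h := D.partA h
    rw [e1, e2, e3, e4, h0] at h
    push_cast at h
    nlinarith
  · have h := D.partB hm.1 hm.2 h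
    rw [e1, e2, e3, e4, h0] at h
    push_cast at h
    nlinarith
  · by_contra hcon
    push Not at hcon
    have h := D.partC (h0.trans hε.symm) h
    rw [e1, e2, e3, e4, h0] at h
    push_cast at h
    nlinarith

theorem quadric {a b : ℤ} (h : D.χ ≤ 3 * D.σ) (hD : D.Quadric a b) (h0 : D.ε₁ = 0)
    (h1 : 0 ≤ a) (h2 : 0 ≤ b) : 8 ≤ a ∧ 8 ≤ b := by
  obtain ⟨e1, e2, e3, e4⟩ := hD
  have h := D.partA h
  rw [e1, e2, e3, e4, h0] at h
  push_cast at h
  constructor
  · by_contra hcon
    push Not at hcon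
    nlinarith
  · by_contra hcon
    push Not at hcon
    nlinarith

end Cover

private theorem sum_pair (a b c d : Fin (23 + 23)) :
    ∑ i, (Pi.single a 1 - Pi.single b 1 : Fin (23 + 23) → ℤ) i *
      (Pi.single c 1 - Pi.single d 1 : Fin (23 + 23) → ℤ) i =
      (if c = a then 1 else 0) - (if c = b then 1 else 0) -
        ((if d = a then 1 else 0) - (if d = b then 1 else 0)) := by
  simp only [Pi.sub_apply, mul_sub, Finset.sum_sub_distrib, Pi.single_apply, mul_ite,
    mul_one, mul_zero, Finset.sum_ite_eq', Finset.mem_univ, if_true]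

private def kk : Fin (23 + 23) → ℤ := Fin.append (fun _ : Fin 23 => 3) (fun _ : Fin 23 => 4)

private theorem sum_kk (g : ℤ → ℤ) : ∑ i, g (kk i) = 23 * g 3 + 23 * g 4 := by
  rw [Fin.sum_univ_add]
  simp only [kk, Fin.append_left, Fin.append_right, Finset.sum_const, Finset.card_univ,
    Fintype.card_fin, nsmul_eq_mul]
  norm_num

private theorem form_one (a b : ℤ) :
    form (fun _ _ : Fin 1 => (1 : ℤ)) (fun _ => a) (fun _ => b) = a * b := by
  simp [form]

/-- The numbers of a curve of degree `46` in the plane with `23` points of type `(7 → 7)`. -/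
def ex46 : Cover where
  r := 1
  G _ _ := 1
  K₀ _ := -3
  L₀ _ := 23
  N := 23 + 23
  k := kk
  ε := 23
  β₀ _ := 0
  β j := Pi.single (Fin.castAdd 23 j) 1 - Pi.single (Fin.natAdd 23 j) 1
  bp := 49
  bm := 24
  bp₀ := 1
  bm₀ := 0
  node_sq j := by
    rw [form_zero_left, sum_pair]
    have h1 : Fin.castAdd 23 j ≠ Fin.natAdd 23 j := by
      rw [ne_eq, Fin.ext_iff, Fin.val_castAdd, Fin.val_natAdd]
      omega
    rw [if_pos rfl, if_neg h1, if_neg h1.symm, if_pos rfl]
    norm_num
  node_node j l hjl := by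
    rw [form_zero_left, sum_pair]
    have h1 : Fin.castAdd 23 l ≠ Fin.natAdd 23 j := by
      rw [ne_eq, Fin.ext_iff, Fin.val_castAdd, Fin.val_natAdd]
      omega
    have h2 : Fin.natAdd 23 l ≠ Fin.castAdd 23 j := by
      rw [ne_eq, Fin.ext_iff, Fin.val_castAdd, Fin.val_natAdd]
      omega
    have h3 : Fin.castAdd 23 l ≠ Fin.castAdd 23 j := by
      rw [ne_eq, Fin.ext_iff] at hjl
      rw [ne_eq, Fin.ext_iff, Fin.val_castAdd, Fin.val_castAdd]
      omega
    have h4 : Fin.natAdd 23 l ≠ Fin.natAdd 23 j := by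
      rw [ne_eq, Fin.ext_iff] at hjl
      rw [ne_eq, Fin.ext_iff, Fin.val_natAdd, Fin.val_natAdd]
      omega
    rw [if_neg h1, if_neg h2, if_neg h3, if_neg h4]
    norm_num
  node_K j := by
    rw [form_zero_right]
    simp only [Pi.sub_apply, Finset.sum_sub_distrib, Pi.single_apply, Finset.sum_ite_eq',
      Finset.mem_univ, if_true]
    norm_num
  node_L j := by
    rw [form_zero_right]
    simp only [Pi.sub_apply, mul_sub, Finset.sum_sub_distrib, Pi.single_apply, mul_ite,
      mul_one, mul_zero, Finset.sum_ite_eq', Finset.mem_univ, if_true]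
    rw [kk, Fin.append_left, Fin.append_right]
    norm_num
  signature := by
    rw [form_one, sum_kk (fun x => x * x)]
    norm_num
  euler := by
    rw [form_one, form_one, sum_kk (fun x => x * x), sum_kk (fun x => x)]
    norm_num
  transfer := by norm_num

theorem ex46_plane : ex46.Plane 23 ∧ ex46.ε₁ = 0 ∧ ex46.χ = 3 * ex46.σ := by
  refine ⟨⟨by decide, by decide, rfl, rfl⟩, ?_, by decide⟩
  have h : {j : Fin ex46.ε | ex46.β₀ j ≠ 0} = ∅ :=
    Set.eq_empty_of_forall_notMem fun j hj => hj rfl
  rw [Cover.ε₁, h, Set.ncard_empty]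

/-- The K3 surface as a double plane, branched along a smooth sextic. -/
def exK3 : Cover where
  r := 1
  G _ _ := 1
  K₀ _ := -3
  L₀ _ := 3
  N := 0
  k i := i.elim0
  ε := 0
  β₀ j := j.elim0
  β j := j.elim0
  bp := 3
  bm := 19
  bp₀ := 1
  bm₀ := 0
  node_sq j := j.elim0
  node_node j := j.elim0
  node_K j := j.elim0
  node_L j := j.elim0
  signature := by decide
  euler := by decide
  transfer := by decide

/-- The projective plane as a double cover of the quadric cone: `Y = Y₀` is the ruled surface `F₂`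
(the lattice of `S² × S²`, with the node `A - B` and `L = A`). Equality in part (A). -/
def exCP2 : Cover where
  r := 2
  G i j := if i = j then 0 else 1
  K₀ _ := -2
  L₀ i := if i = 0 then 1 else 0
  N := 0
  k i := i.elim0
  ε := 1
  β₀ _ i := if i = 0 then 1 else -1
  β _ i := i.elim0
  bp := 1
  bm := 0
  bp₀ := 1
  bm₀ := 1
  node_sq := by decide
  node_node j l h := absurd (Subsingleton.elim j l) h
  node_K := by decide
  node_L := by decide
  signature := by decide
  euler := by decide
  transfer := by decide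

end Pool.Agent.H69.DC
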