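import Mathlib

/-!
# Symplectic involutions: the homological data of the double cover

`M` is a closed simply connected symplectic 4-manifold with a symplectic involution with `ε` isolated
fixed points, `X = M # ε(-ℂℙ²)`, `X → Y` the quotient (a smooth double cover of the closed symplectic
4-manifold `Y`, branched along a symplectic curve `B` of class `2L`); `B` contains `ε` disjoint
spheres of square `-2`, the *nodes*, over the isolated fixed points. `Y` is a blow up
`Y₀ # N(-ℂℙ²)` of a symplectic 4-manifold `Y₀`, with exceptional classes `e₁, …, e_N`,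
`K_Y = K₀ + ∑ eᵢ` and `L = L₀ - ∑ kᵢ eᵢ` (the canonical resolution of the image of `B` in `Y₀`, which
may have arbitrary singularities).

The fields of `Cover` are the formulas for the Euler characteristic and the signature of a double
cover, the adjunction formula for the components of `B`, and the injectivity of the pull back
`H²(Y; ℝ) → H²(X; ℝ)`, which doubles the form. No gauge theory is used.
-/

namespace Pool.Agent.H69.DC

/-- The bilinear form with the Gram matrix `G`. -/
def form {r : ℕ} (G : Fin r → Fin r → ℤ) (x y : Fin r → ℤ) : ℤ :=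
  ∑ i, ∑ j, x i * G i j * y j

/-- Homological data of a double cover `X = M # ε(-ℂℙ²) → Y = Y₀ # N(-ℂℙ²)`. -/
structure Cover where
  /-- the rank of `H²(Y₀; ℤ)` -/
  r : ℕ
  /-- the Gram matrix of the intersection form of `Y₀` -/
  G : Fin r → Fin r → ℤ
  /-- the canonical class of `Y₀` -/
  K₀ : Fin r → ℤ
  /-- the component of `L` in `H²(Y₀; ℤ)` -/
  L₀ : Fin r → ℤ
  /-- the number of blown up points (infinitely near ones included) -/
  N : ℕ
  /-- the coefficients of `L = L₀ - ∑ kᵢ eᵢ`: in the canonical resolution the multiplicity of the total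
  (reduced) branch curve in the point `i` is `2 kᵢ` or `2 kᵢ + 1` -/
  k : Fin N → ℤ
  /-- the number of isolated fixed points -/
  ε : ℕ
  /-- the components in `H²(Y₀; ℤ)` of the classes of the nodes -/
  β₀ : Fin ε → Fin r → ℤ
  /-- the components in `ℤ e₁ ⊕ … ⊕ ℤ e_N` of the classes of the nodes -/
  β : Fin ε → Fin N → ℤ
  /-- `b⁺(M)` -/
  bp : ℕ
  /-- `b⁻(M)` -/
  bm : ℕ
  /-- `b⁺(Y₀)` -/
  bp₀ : ℕ
  /-- `b⁻(Y₀)` -/
  bm₀ : ℕ
  /-- the nodes have square `-2` -/
  node_sq : ∀ j, form G (β₀ j) (β₀ j) - ∑ i, β j i * β j i = -2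
  /-- different nodes are disjoint -/
  node_node : ∀ j l, j ≠ l → form G (β₀ j) (β₀ l) - ∑ i, β j i * β l i = 0
  /-- a node is a sphere: `K_Y · β = 0` (adjunction), `K_Y = K₀ + ∑ eᵢ` -/
  node_K : ∀ j, form G K₀ (β₀ j) - ∑ i, β j i = 0
  /-- a node is a component of `B`, disjoint from the other ones: `2 L · β = B · β = β² = -2` -/
  node_L : ∀ j, form G L₀ (β₀ j) + ∑ i, k i * β j i = -1
  /-- `σ(X) = 2 σ(Y) - B² / 2`, `B² = 4 L²` -/
  signature : (bp : ℤ) - (bm + ε) = 2 * (bp₀ - (bm₀ + N)) - 2 * (form G L₀ L₀ - ∑ i, k i * k i)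
  /-- `χ(X) = 2 χ(Y) - χ(B)` and `χ(B) = - (K_Y · B + B²)` (adjunction), `B = 2 L` -/
  euler : 2 + (bp : ℤ) + (bm + ε) = 2 * (2 + bp₀ + (bm₀ + N)) +
    (2 * (form G K₀ L₀ + ∑ i, k i) + 4 * (form G L₀ L₀ - ∑ i, k i * k i))
  /-- `b⁻(Y) ≤ b⁻(X)` (pull back) -/
  transfer : bm₀ + N ≤ bm + ε

namespace Cover

variable (D : Cover)

/-- the Euler characteristic of `M` -/
def χ : ℤ := 2 + D.bp + D.bm

/-- the signature of `M` -/
def σ : ℤ := D.bp - D.bm

/-- `K₀ · L₀` -/
def KL : ℤ := form D.G D.K₀ D.L₀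

/-- `L₀ · L₀` -/
def LL : ℤ := form D.G D.L₀ D.L₀

/-- the number of nodes which are not contracted in `Y₀` -/
noncomputable def ε₁ : ℕ := {j : Fin D.ε | D.β₀ j ≠ 0}.ncard

/-- Mild singularities: in the canonical resolution all multiplicities of the total branch curve are
at most `7`, and there are no points of type `(5 → 5)`: no contracted node `e_a - e_b` has
`k_a = 2`. (Points of type `(7 → 7)`, `k_a = 3`, `k_b = 4`, are excluded, too.) -/
def Mild : Prop :=
  (∀ i, 0 ≤ D.k i ∧ D.k i ≤ 3) ∧ ∀ j a, D.β₀ j = 0 → D.β j a = 1 → D.k a ≠ 2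

/-- `Y₀` has the numbers of `ℂℙ²`, the branch curve has degree `2d` there. -/
def Plane (d : ℤ) : Prop :=
  D.LL = d * d ∧ D.KL = -3 * d ∧ D.bp₀ = 1 ∧ D.bm₀ = 0

/-- `Y₀` has the numbers of `S² × S²`, the branch curve has bidegree `(2a, 2b)` there. -/
def Quadric (a b : ℤ) : Prop :=
  D.LL = 2 * a * b ∧ D.KL = -2 * (a + b) ∧ D.bp₀ = 1 ∧ D.bm₀ = 1

end Cover

end Pool.Agent.H69.DC
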