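import Pool.Agent.H69.DC.Defs

/-!
# The counting argument
-/

open Finset

namespace Pool.Agent.H69.DC

/-- An integral vector of square `2` and sum `0` is a difference of two basis vectors. -/
theorem exists_pair {N : ℕ} {a : Fin N → ℤ} (h2 : ∑ i, a i * a i = 2) (h0 : ∑ i, a i = 0) :
    ∃ i j, i ≠ j ∧ a = Pi.single i 1 - Pi.single j 1 := by
  classical
  -- some entry is positive, some entry is negative
  have hpos : ∃ i, 0 < a i := by
    by_contra hcon
    push Not at hcon
    have h1 : ∀ i ∈ (univ : Finset (Fin N)), a i = 0 :=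
      (Finset.sum_eq_zero_iff_of_nonpos fun i _ => hcon i).1 h0
    have : ∑ i, a i * a i = 0 := Finset.sum_eq_zero fun i hi => by rw [h1 i hi, mul_zero]
    omega
  have hneg : ∃ i, a i < 0 := by
    by_contra hcon
    push Not at hcon
    have h1 : ∀ i ∈ (univ : Finset (Fin N)), a i = 0 :=
      (Finset.sum_eq_zero_iff_of_nonneg fun i _ => hcon i).1 h0
    have : ∑ i, a i * a i = 0 := Finset.sum_eq_zero fun i hi => by rw [h1 i hi, mul_zero]
    omega
  obtain ⟨i, hi⟩ := hpos
  obtain ⟨j, hj⟩ := hneg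
  have hij : i ≠ j := by
    rintro rfl
    omega
  refine ⟨i, j, hij, ?_⟩
  have h3 : a i * a i + a j * a j + ∑ l ∈ (univ.erase i).erase j, a l * a l = 2 := by
    rw [← h2, ← Finset.add_sum_erase univ _ (mem_univ i),
      ← Finset.add_sum_erase (univ.erase i) _ (mem_erase.2 ⟨hij.symm, mem_univ j⟩)]
    ring
  have h4 : 0 ≤ ∑ l ∈ (univ.erase i).erase j, a l * a l :=
    Finset.sum_nonneg fun l _ => mul_self_nonneg _
  have hi1 : a i = 1 := by nlinarith
  have hj1 : a j = -1 := by nlinarith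
  have h5 : ∑ l ∈ (univ.erase i).erase j, a l * a l = 0 := by
    rw [hi1, hj1] at h3
    omega
  have h6 := (Finset.sum_eq_zero_iff_of_nonneg fun l _ => mul_self_nonneg (a l)).1 h5
  funext l
  rw [Pi.sub_apply]
  by_cases hl : l = i
  · subst hl
    rw [Pi.single_eq_same, Pi.single_eq_of_ne hij, hi1, sub_zero]
  · by_cases hl' : l = j
    · subst hl'
      rw [Pi.single_eq_same, Pi.single_eq_of_ne hl, hj1, zero_sub]
    · rw [Pi.single_eq_of_ne hl, Pi.single_eq_of_ne hl', sub_zero]
      exact mul_self_eq_zero.1 (h6 l (by simp [hl, hl']))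

theorem form_zero_left {r : ℕ} (G : Fin r → Fin r → ℤ) (x : Fin r → ℤ) : form G 0 x = 0 := by
  simp [form]

theorem form_zero_right {r : ℕ} (G : Fin r → Fin r → ℤ) (x : Fin r → ℤ) : form G x 0 = 0 := by
  simp [form]

namespace Cover

variable (D : Cover)

/-- a contracted node lies over two infinitely near points of multiplicities `2h+1`, `2h+1` -/
theorem exists_pair {j : Fin D.ε} (h : D.β₀ j = 0) :
    ∃ a b, a ≠ b ∧ D.β j = Pi.single a 1 - Pi.single b 1 ∧ D.k b = D.k a + 1 := by
  have h1 := D.node_sq j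
  have h2 := D.node_K j
  have h3 := D.node_L j
  rw [h, form_zero_right] at h1 h2 h3
  rw [zero_sub] at h1 h2
  rw [zero_add] at h3
  obtain ⟨a, b, hab, he⟩ := DC.exists_pair (a := D.β j) (by omega) (by omega)
  refine ⟨a, b, hab, he, ?_⟩
  rw [he] at h3
  simp only [Pi.sub_apply, mul_sub, Finset.sum_sub_distrib, Pi.single_apply, mul_ite, mul_one,
    mul_zero, Finset.sum_ite_eq', Finset.mem_univ, if_true] at h3
  omega

/-- The sum of a function of the multiplicities over all points is at least the sum over the pairs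
of the contracted nodes. -/
theorem sum_ge (g : ℤ → ℤ) (hg : ∀ i, 0 ≤ g (D.k i)) (c : ℤ)
    (hc : ∀ j, D.β₀ j = 0 → ∀ a b, a ≠ b → D.β j = Pi.single a 1 - Pi.single b 1 →
      D.k b = D.k a + 1 → c ≤ g (D.k a) + g (D.k b)) :
    c * ((D.ε : ℤ) - D.ε₁) ≤ ∑ i, g (D.k i) := by
  classical
  set C : Finset (Fin D.ε) := univ.filter fun j => D.β₀ j = 0 with hC
  have hcard : ((C.card : ℕ) : ℤ) = (D.ε : ℤ) - D.ε₁ := by
    have h1 : D.ε₁ = (univ.filter fun j : Fin D.ε => ¬ D.β₀ j = 0).card := by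
      rw [ε₁, ← Set.ncard_coe_finset]
      congr 1
      ext j
      simp
    have h2 := Finset.card_filter_add_card_filter_not (s := (univ : Finset (Fin D.ε)))
      (p := fun j => D.β₀ j = 0)
    rw [Finset.card_univ, Fintype.card_fin] at h2
    rw [h1, hC]
    omega
  have hex : ∀ j : C, ∃ a b, a ≠ b ∧ D.β j = Pi.single a 1 - Pi.single b 1 ∧
      D.k b = D.k a + 1 := fun j => D.exists_pair (Finset.mem_filter.1 j.2).2
  choose a b hab he hk using hex
  have hdisj : ∀ j l : C, j ≠ l → Disjoint ({a j, b j} : Finset (Fin D.N)) {a l, b l} := by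
    intro j l hjl
    have h1 := D.node_node j l fun h => hjl (Subtype.ext h)
    rw [(Finset.mem_filter.1 j.2).2, form_zero_left, zero_sub, he j, he l] at h1
    simp only [Pi.sub_apply, mul_sub, Finset.sum_sub_distrib, Pi.single_apply, mul_ite,
      mul_one, mul_zero, Finset.sum_ite_eq', Finset.mem_univ, if_true] at h1
    have hj := hab j
    have hl := hab l
    rw [Finset.disjoint_left]
    intro x hx hx'
    rw [Finset.mem_insert, Finset.mem_singleton] at hx hx'
    simp only [ne_eq, Fin.ext_iff] at h1 hj hl hx hx'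
    split_ifs at h1 <;> omega
  have hsum : ∑ j : C, (g (D.k (a j)) + g (D.k (b j))) ≤ ∑ i, g (D.k i) := by
    have h1 : ∀ j : C, g (D.k (a j)) + g (D.k (b j)) =
        ∑ i ∈ ({a j, b j} : Finset (Fin D.N)), g (D.k i) := by
      intro j
      rw [Finset.sum_pair (hab j)]
    rw [Finset.sum_congr rfl fun j _ => h1 j, ← Finset.sum_biUnion]
    · exact Finset.sum_le_univ_sum_of_nonneg fun i => hg i
    · intro j _ l _ hjl
      exact hdisj j l hjl
  have hle : ∑ _j : C, c ≤ ∑ j : C, (g (D.k (a j)) + g (D.k (b j))) :=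
    Finset.sum_le_sum fun j _ => hc j (Finset.mem_filter.1 j.2).2 _ _ (hab j) (he j) (hk j)
  rw [Finset.sum_const, Finset.card_univ, Fintype.card_coe, nsmul_eq_mul, hcard] at hle
  linarith

/-- Part (A): the curves with arbitrary singularities. -/
theorem partA (h : D.χ ≤ 3 * D.σ) :
    76 * (D.bm₀ : ℤ) + 10 ≤ 3 * D.LL + 23 * D.KL + 66 * (D.bp₀ + D.ε₁) := by
  have h1 := D.sum_ge (fun k => 3 * (k * k) - 23 * k + 76)
    (fun i => by nlinarith [sq_nonneg (6 * D.k i - 23)]) 66 (by
      intro j _ a b _ _ hk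
      rw [hk]
      have h2 : 0 ≤ (D.k a - 3) * (3 * D.k a - 11) := by
        rcases le_or_gt (D.k a) 3 with h3 | h3
        · exact mul_nonneg_of_nonpos_of_nonpos (by omega) (by omega)
        · exact mul_nonneg (by omega) (by omega)
      nlinarith)
  have h2 := D.signature
  have h3 := D.euler
  have h4 : (D.bm₀ : ℤ) + D.N ≤ D.bm + D.ε := by exact_mod_cast D.transfer
  unfold χ σ at h
  unfold LL KL
  rw [Finset.sum_add_distrib, Finset.sum_sub_distrib, ← Finset.mul_sum, ← Finset.mul_sum,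
    Finset.sum_const, Finset.card_univ, Fintype.card_fin, nsmul_eq_mul] at h1
  linarith

/-- Part (B): the curves with mild singularities. -/
theorem partB (hk : ∀ i, 0 ≤ D.k i ∧ D.k i ≤ 3)
    (h2 : ∀ j a, D.β₀ j = 0 → D.β j a = 1 → D.k a ≠ 2) (h : D.χ ≤ 3 * D.σ) :
    D.LL + 54 * D.bm₀ + 8 ≤ 15 * D.KL + 46 * (D.bp₀ + D.ε₁) := by
  have h1 := D.sum_ge (fun k => 54 - k * k - 15 * k)
    (fun i => by
      obtain ⟨h3, h4⟩ := hk i
      nlinarith) 46 (by
      intro j hj a b hab he hkab
      have h3 : D.k a ≠ 2 := h2 j a hj (by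
        rw [he, Pi.sub_apply, Pi.single_eq_same, Pi.single_eq_of_ne hab, sub_zero])
      obtain ⟨h4, -⟩ := hk a
      obtain ⟨-, h5⟩ := hk b
      have h6 : D.k a = 0 ∨ D.k a = 1 := by omega
      rcases h6 with h6 | h6 <;> rw [hkab, h6] <;> norm_num)
  have h2' := D.signature
  have h3 := D.euler
  have h4 : (D.bm₀ : ℤ) + D.N ≤ D.bm + D.ε := by exact_mod_cast D.transfer
  unfold χ σ at h
  unfold LL KL
  rw [Finset.sum_sub_distrib, Finset.sum_sub_distrib, ← Finset.mul_sum,
    Finset.sum_const, Finset.card_univ, Fintype.card_fin, nsmul_eq_mul] at h1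
  linarith

/-- Part (C): no contracted nodes, in particular no isolated fixed points. -/
theorem partC (h0 : D.ε₁ = D.ε) (h : D.χ ≤ 3 * D.σ) :
    322 * (D.bm₀ : ℤ) + 44 ≤ 7 * D.LL + 95 * D.KL + 278 * (D.bp₀ + D.ε₁) := by
  have h1 : 0 ≤ ∑ i, (7 * (D.k i * D.k i) - 95 * D.k i + 322) := by
    refine Finset.sum_nonneg fun i _ => ?_
    have h2 : 0 ≤ (D.k i - 7) * (7 * D.k i - 46) := by
      rcases le_or_gt 7 (D.k i) with h3 | h3
      · exact mul_nonneg (by omega) (by omega)
      · exact mul_nonneg_of_nonpos_of_nonpos (by omega) (by omega)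
    nlinarith
  have h2 := D.signature
  have h3 := D.euler
  have h4 : (D.bm₀ : ℤ) + D.N ≤ D.bm + D.ε := by exact_mod_cast D.transfer
  have h5 : (D.ε₁ : ℤ) = D.ε := by exact_mod_cast h0
  unfold χ σ at h
  unfold LL KL
  rw [Finset.sum_add_distrib, Finset.sum_sub_distrib, ← Finset.mul_sum, ← Finset.mul_sum,
    Finset.sum_const, Finset.card_univ, Fintype.card_fin, nsmul_eq_mul] at h1
  linarith

end Cover

end Pool.Agent.H69.DC
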